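import Mathlib

set_option autoImplicit false

/-!
# Complex Stirling formula with explicit error in the right half plane

`Gamma s = sqrt (2 pi) * exp ((s - 1/2) * log s - s + mu)` with
`norm mu <= (1/6) * (1/norm s ^ 2 + 1/norm s)` for `0 < re s`.
-/

namespace Pool.Agent.Helper14.Stir

open Filter Topology Complex

/-- Gudermann's function `(z + 1/2) (log (z+1) - log z) - 1`. -/
noncomputable def gud (z : ℂ) : ℂ := (z + 1 / 2) * (log (z + 1) - log z) - 1

/-- Main part of `log Gamma`. -/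
noncomputable def mainL (z : ℂ) : ℂ := (z - 1 / 2) * log z - z

lemma norm_le_of_re {z : ℂ} (hz : 0 < z.re) {u : ℝ} (hu : 0 ≤ u) : ‖z‖ ≤ ‖z + u‖ := by
  rw [Complex.norm_def, Complex.norm_def]
  apply Real.sqrt_le_sqrt
  rw [Complex.normSq_apply, Complex.normSq_apply]
  simp only [add_re, ofReal_re, add_im, ofReal_im, add_zero]
  nlinarith

/-- The auxiliary function whose value at `1/2` is `gud z`. -/
noncomputable def aux (z : ℂ) (h : ℝ) : ℂ :=
  (z + 1 / 2) * (log (z + 1 / 2 + h) - log (z + 1 / 2 - h)) - 2 * h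

lemma aux_deriv {z : ℂ} (hz : 0 < z.re) {h : ℝ} (h0 : 0 ≤ h) (h1 : h ≤ 1 / 2) :
    HasDerivAt (aux z) ((z + 1 / 2) * (1 / (z + 1 / 2 + h) + 1 / (z + 1 / 2 - h)) - 2) h := by
  have hre1 : 0 < (z + 1 / 2 + h : ℂ).re := by
    simp; linarith
  have hre2 : 0 < (z + 1 / 2 - h : ℂ).re := by
    simp; linarith
  have d0 : HasDerivAt (fun x : ℝ => (x : ℂ)) 1 h := by
    simpa using (hasDerivAt_id h).ofReal_comp
  have d1 : HasDerivAt (fun x : ℝ => log (z + 1 / 2 + x)) (1 / (z + 1 / 2 + h)) h := by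
    have := (d0.const_add (z + 1 / 2)).clog_real (Or.inl hre1)
    exact this
  have d2 : HasDerivAt (fun x : ℝ => log (z + 1 / 2 - x)) (-1 / (z + 1 / 2 - h)) h := by
    have := (d0.const_sub (z + 1 / 2)).clog_real (Or.inl hre2)
    exact this
  have d3 : HasDerivAt (aux z) ((z + 1 / 2) * (1 / (z + 1 / 2 + h) -
      (-1 / (z + 1 / 2 - h))) - 2 * 1) h :=
    ((d1.sub d2).const_mul (z + 1 / 2)).sub (d0.const_mul 2)
  have e : (z + 1 / 2) * (1 / (z + 1 / 2 + h) + 1 / (z + 1 / 2 - h)) - 2 =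
      (z + 1 / 2) * (1 / (z + 1 / 2 + h) - (-1 / (z + 1 / 2 - h))) - 2 * 1 := by ring
  rw [e]
  exact d3

lemma aux_bound {z : ℂ} (hz : 0 < z.re) {h : ℝ} (h0 : 0 ≤ h) (h1 : h ≤ 1 / 2) :
    ‖(z + 1 / 2) * (1 / (z + 1 / 2 + h) + 1 / (z + 1 / 2 - h)) - 2‖ ≤ 2 * h ^ 2 / ‖z‖ ^ 2 := by
  have hz0 : 0 < ‖z‖ := norm_pos_iff.2 (fun h => by rw [h] at hz; simp at hz)
  have e1 : z + 1 / 2 + h = z + ((1 / 2 + h : ℝ) : ℂ) := by push_cast; ring
  have e2 : z + 1 / 2 - h = z + ((1 / 2 - h : ℝ) : ℂ) := by push_cast; ring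
  have n1 : ‖z‖ ≤ ‖z + 1 / 2 + h‖ := by rw [e1]; exact norm_le_of_re hz (by linarith)
  have n2 : ‖z‖ ≤ ‖z + 1 / 2 - h‖ := by rw [e2]; exact norm_le_of_re hz (by linarith)
  have k1 : z + 1 / 2 + h ≠ 0 := norm_pos_iff.1 (hz0.trans_le n1)
  have k2 : z + 1 / 2 - h ≠ 0 := norm_pos_iff.1 (hz0.trans_le n2)
  have e3 : (z + 1 / 2) * (1 / (z + 1 / 2 + h) + 1 / (z + 1 / 2 - h)) - 2 =
      2 * h ^ 2 / ((z + 1 / 2 + h) * (z + 1 / 2 - h)) := by
    have a1 : z + 1 / 2 = ((z + 1 / 2 + h) + (z + 1 / 2 - h)) / 2 := by ring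
    have a2 : (h : ℂ) = ((z + 1 / 2 + h) - (z + 1 / 2 - h)) / 2 := by ring
    have a3 : ∀ A B : ℂ, A ≠ 0 → B ≠ 0 → (A + B) / 2 * (1 / A + 1 / B) - 2 =
        2 * ((A - B) / 2) ^ 2 / (A * B) := by
      intro A B hA hB
      field_simp
      ring
    have a4 := a3 _ _ k1 k2
    rw [← a1, ← a2] at a4
    exact a4
  rw [e3, norm_div, norm_mul, norm_mul]
  have e4 : ‖(2 : ℂ)‖ * ‖(h : ℂ) ^ 2‖ = 2 * h ^ 2 := by
    rw [norm_pow, Complex.norm_real, Real.norm_of_nonneg h0]; simp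
  rw [e4]
  apply div_le_div_of_nonneg_left (by positivity) (by positivity)
  rw [pow_two]
  exact mul_le_mul n1 n2 hz0.le (norm_nonneg _)

lemma gud_bound {z : ℂ} (hz : 0 < z.re) : ‖gud z‖ ≤ 1 / 12 / ‖z‖ ^ 2 := by
  have hz0 : 0 < ‖z‖ := norm_pos_iff.2 (fun h => by rw [h] at hz; simp at hz)
  have hg : gud z = aux z (1 / 2) := by
    unfold gud aux
    push_cast
    have e1 : z + 1 / 2 + 1 / 2 = z + 1 := by ring
    have e2 : z + 1 / 2 - 1 / 2 = z := by ring
    rw [e1, e2]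
    ring
  rw [hg]
  have key := image_norm_le_of_norm_deriv_right_le_deriv_boundary (f := aux z)
    (a := 0) (b := 1 / 2)
    (f' := fun h : ℝ => (z + 1 / 2) * (1 / (z + 1 / 2 + h) + 1 / (z + 1 / 2 - h)) - 2)
    (B := fun h : ℝ => 2 / 3 * h ^ 3 / ‖z‖ ^ 2) (B' := fun h : ℝ => 2 * h ^ 2 / ‖z‖ ^ 2)
    (fun h hh => (aux_deriv hz hh.1 hh.2).continuousAt.continuousWithinAt)
    (fun h hh => (aux_deriv hz hh.1 hh.2.le).hasDerivWithinAt)
    (by simp [aux])
    (fun h => by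
      have h3 : HasDerivAt (fun h : ℝ => 2 / 3 * h ^ 3 / ‖z‖ ^ 2)
          (2 / 3 * (((3 : ℕ) : ℝ) * h ^ (3 - 1)) / ‖z‖ ^ 2) h :=
        ((hasDerivAt_pow 3 h).const_mul (2 / 3)).div_const (‖z‖ ^ 2)
      have e : 2 * h ^ 2 / ‖z‖ ^ 2 = 2 / 3 * (((3 : ℕ) : ℝ) * h ^ (3 - 1)) / ‖z‖ ^ 2 := by
        norm_num
        ring
      rw [e]
      exact h3)
    (fun h hh => aux_bound hz hh.1 hh.2.le)
  have := key (x := 1 / 2) ⟨by norm_num, le_rfl⟩
  refine this.trans (le_of_eq ?_)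
  ring

lemma step {z : ℂ} (hz : z ≠ 0) : exp (mainL (z + 1) - mainL z - gud z) = z := by
  have : mainL (z + 1) - mainL z - gud z = log z := by
    unfold mainL gud; ring
  rw [this, exp_log hz]

lemma prod_eq {s : ℂ} (hs : 0 < s.re) (n : ℕ) :
    ∏ j ∈ Finset.range n, (s + j) =
      exp (mainL (s + n) - mainL s - ∑ k ∈ Finset.range n, gud (s + k)) := by
  induction n with
  | zero => simp
  | succ n ih =>
    have hne : s + n ≠ 0 := by
      intro h
      have : (s + n).re = 0 := by rw [h]; simp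
      simp at this
      have h2 : (0 : ℝ) ≤ n := by positivity
      linarith
    rw [Finset.prod_range_succ, ih, Finset.sum_range_succ]
    nth_rewrite 2 [← step hne]
    rw [← exp_add]
    congr 1
    push_cast
    ring_nf

lemma sq_bound {s : ℂ} (hs : 0 < s.re) (k : ℕ) : (‖s‖ + k) ^ 2 / 2 ≤ ‖s + k‖ ^ 2 := by
  have h1 : ‖s + k‖ ^ 2 = ‖s‖ ^ 2 + 2 * k * s.re + k ^ 2 := by
    rw [← Complex.normSq_eq_norm_sq, ← Complex.normSq_eq_norm_sq, Complex.normSq_apply,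
      Complex.normSq_apply]
    simp
    ring
  rw [h1]
  have hk : (0 : ℝ) ≤ k := by positivity
  nlinarith [sq_nonneg (‖s‖ - k), mul_nonneg hk hs.le]

lemma gud_bound' {s : ℂ} (hs : 0 < s.re) (k : ℕ) :
    ‖gud (s + k)‖ ≤ 1 / 6 * (1 / (‖s‖ + k) ^ 2) := by
  have hz0 : 0 < ‖s‖ := norm_pos_iff.2 (fun h => by rw [h] at hs; simp at hs)
  have hre : 0 < (s + k).re := by
    simp
    have : (0 : ℝ) ≤ k := by positivity
    linarith
  refine (gud_bound hre).trans ?_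
  have h1 := sq_bound hs k
  have h2 : 0 < (‖s‖ + k) ^ 2 := by positivity
  have h3 : 0 < ‖s + k‖ ^ 2 := by linarith
  rw [div_div, show 1 / 6 * (1 / (‖s‖ + k) ^ 2) = 1 / (6 * (‖s‖ + k) ^ 2) by field_simp]
  apply one_div_le_one_div_of_le (by positivity)
  linarith

lemma sum_bound {a : ℝ} (ha : 0 < a) (n : ℕ) :
    ∑ k ∈ Finset.range n, 1 / (a + k) ^ 2 ≤ 1 / a ^ 2 + 1 / a := by
  have key : ∀ m : ℕ, ∑ k ∈ Finset.range (m + 1), 1 / (a + k) ^ 2 ≤
      1 / a ^ 2 + 1 / a - 1 / (a + m) := by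
    intro m
    induction m with
    | zero => simp
    | succ m ih =>
      rw [Finset.sum_range_succ]
      have hm : 0 < a + m := by positivity
      have h1 : 1 / (a + (m + 1 : ℕ)) ^ 2 ≤ 1 / (a + m) - 1 / (a + (m + 1 : ℕ)) := by
        push_cast
        rw [div_sub_div _ _ hm.ne' (by positivity), div_le_div_iff₀ (by positivity) (by positivity)]
        nlinarith
      linarith
  rcases n with _ | n
  · simp; positivity
  · refine (key n).trans ?_
    have : 0 < 1 / (a + n) := by positivity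
    linarith

/-- the correction term. -/
noncomputable def mu (s : ℂ) : ℂ := ∑' k : ℕ, gud (s + k)

lemma summable_norm {s : ℂ} (hs : 0 < s.re) : Summable fun k : ℕ => ‖gud (s + k)‖ := by
  have hz0 : 0 < ‖s‖ := norm_pos_iff.2 (fun h => by rw [h] at hs; simp at hs)
  apply summable_of_sum_range_le (c := 1 / 6 * (1 / ‖s‖ ^ 2 + 1 / ‖s‖))
    (fun _ => norm_nonneg _)
  intro n
  calc ∑ k ∈ Finset.range n, ‖gud (s + k)‖
      ≤ ∑ k ∈ Finset.range n, 1 / 6 * (1 / (‖s‖ + k) ^ 2) :=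
        Finset.sum_le_sum fun k _ => gud_bound' hs k
    _ = 1 / 6 * ∑ k ∈ Finset.range n, 1 / (‖s‖ + k) ^ 2 := by rw [Finset.mul_sum]
    _ ≤ 1 / 6 * (1 / ‖s‖ ^ 2 + 1 / ‖s‖) :=
        mul_le_mul_of_nonneg_left (sum_bound hz0 n) (by norm_num)

lemma norm_mu {s : ℂ} (hs : 0 < s.re) : ‖mu s‖ ≤ 1 / 6 * (1 / ‖s‖ ^ 2 + 1 / ‖s‖) := by
  have hz0 : 0 < ‖s‖ := norm_pos_iff.2 (fun h => by rw [h] at hs; simp at hs)
  refine (norm_tsum_le_tsum_norm (summable_norm hs)).trans ?_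
  apply Real.tsum_le_of_sum_range_le (fun _ => norm_nonneg _)
  intro n
  calc ∑ k ∈ Finset.range n, ‖gud (s + k)‖
      ≤ ∑ k ∈ Finset.range n, 1 / 6 * (1 / (‖s‖ + k) ^ 2) :=
        Finset.sum_le_sum fun k _ => gud_bound' hs k
    _ = 1 / 6 * ∑ k ∈ Finset.range n, 1 / (‖s‖ + k) ^ 2 := by rw [Finset.mul_sum]
    _ ≤ 1 / 6 * (1 / ‖s‖ ^ 2 + 1 / ‖s‖) :=
        mul_le_mul_of_nonneg_left (sum_bound hz0 n) (by norm_num)

lemma tendsto_aux (s : ℂ) : Tendsto (fun n : ℕ => (s + n + 1 / 2) * log (1 + (s + 1) / n)) atTop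
    (𝓝 (s + 1)) := by
  have h0 : Tendsto (fun n : ℕ => (s + 1) / (n : ℂ)) atTop (𝓝 0) := by
    have := tendsto_inv_atTop_nhds_zero_nat (𝕜 := ℂ)
    simpa [div_eq_mul_inv] using this.const_mul (s + 1)
  have h1 : Tendsto (fun n : ℕ => (n : ℂ) * log (1 + (s + 1) / n)) atTop (𝓝 (s + 1)) := by
    apply Complex.tendsto_nat_mul_log_one_add_of_tendsto
    apply tendsto_const_nhds.congr'
    filter_upwards [eventually_ge_atTop 1] with n hn
    have : (n : ℂ) ≠ 0 := by exact_mod_cast (by omega : n ≠ 0)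
    field_simp
  have h2 : Tendsto (fun n : ℕ => log (1 + (s + 1) / n)) atTop (𝓝 0) := by
    have h3 : Tendsto (fun n : ℕ => 1 + (s + 1) / (n : ℂ)) atTop (𝓝 1) := by
      simpa using h0.const_add 1
    have h4 := (continuousAt_clog (by simp : (1 : ℂ) ∈ slitPlane)).tendsto.comp h3
    simpa [Function.comp_def] using h4
  have h5 := h1.add (h2.const_mul (s + 1 / 2))
  simp only [mul_zero, add_zero] at h5
  refine h5.congr fun n => ?_
  ring

lemma gammaSeq_eq {s : ℂ} (hs : 0 < s.re) {n : ℕ} (hn : 1 ≤ n) :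
    GammaSeq s n = (Stirling.stirlingSeq n : ℂ) * (Real.sqrt 2 : ℂ) *
      exp (mainL s + ∑ k ∈ Finset.range (n + 1), gud (s + k) + (s + 1) -
        (s + n + 1 / 2) * log (1 + (s + 1) / n)) := by
  have hnr : (0 : ℝ) < n := by exact_mod_cast hn
  have hnc : (n : ℂ) ≠ 0 := by exact_mod_cast hnr.ne'
  have hfac : ((n.factorial : ℕ) : ℂ) = (Stirling.stirlingSeq n : ℂ) * (Real.sqrt 2 : ℂ) *
      exp ((1 / 2) * log n + n * log n - n) := by
    have h1 : (n.factorial : ℝ) = Stirling.stirlingSeq n * Real.sqrt 2 *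
        Real.exp ((1 / 2) * Real.log n + n * Real.log n - n) := by
      unfold Stirling.stirlingSeq
      have h2 : Real.sqrt (2 * n) = Real.sqrt 2 * Real.exp ((1 / 2) * Real.log n) := by
        rw [Real.sqrt_mul (by norm_num)]
        congr 1
        rw [Real.sqrt_eq_rpow, Real.rpow_def_of_pos hnr]
        ring_nf
      have h3 : ((n : ℝ) / Real.exp 1) ^ n = Real.exp (n * Real.log n - n) := by
        rw [div_pow, ← Real.exp_nat_mul, mul_one, Real.exp_sub]
        congr 1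
        rw [Real.exp_nat_mul, Real.exp_log hnr]
      rw [h2, h3]
      have h4 : Real.exp (1 / 2 * Real.log n + n * Real.log n - n) =
          Real.exp ((1 / 2) * Real.log n) * Real.exp (n * Real.log n - n) := by
        rw [← Real.exp_add]; ring_nf
      rw [h4]
      have h5 : Real.sqrt 2 ≠ 0 := by positivity
      field_simp
    have h6 := congrArg (fun r : ℝ => (r : ℂ)) h1
    simp only [ofReal_mul, ofReal_exp, ofReal_sub, ofReal_add, ofReal_natCast, ofReal_div,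
      ofReal_one, ofReal_ofNat, ofReal_log hnr.le] at h6
    exact h6
  have hlog : log (s + (n + 1 : ℕ)) = log n + log (1 + (s + 1) / n) := by
    have h1 : s + (n + 1 : ℕ) = ((n : ℝ) : ℂ) * (1 + (s + 1) / n) := by
      push_cast
      field_simp
      ring
    have h2 : (1 : ℂ) + (s + 1) / n ≠ 0 := by
      intro h
      have h3 : ((1 : ℂ) + (s + 1) / n).re = 0 := by rw [h]; simp
      have h4 : ((s + 1) / (n : ℂ)).re = (s.re + 1) / n := by
        rw [Complex.div_natCast_re]; simp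
      rw [add_re, h4] at h3
      have : 0 < (s.re + 1) / n := by positivity
      simp at h3
      linarith
    rw [h1, log_ofReal_mul hnr h2, ofReal_log hnr.le]
    simp
  unfold GammaSeq
  rw [prod_eq hs (n + 1), cpow_def_of_ne_zero hnc, hfac, mul_comm, mul_assoc, mul_div_assoc,
    ← exp_add, ← exp_sub]
  congr 2
  unfold mainL
  rw [hlog]
  push_cast
  ring

theorem Gamma_eq {s : ℂ} (hs : 0 < s.re) :
    Gamma s = (Real.sqrt (2 * Real.pi) : ℂ) * exp ((s - 1 / 2) * log s - s + mu s) := by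
  have h1 := GammaSeq_tendsto_Gamma s
  have h2 : Tendsto (fun n : ℕ => (Stirling.stirlingSeq n : ℂ) * (Real.sqrt 2 : ℂ) *
      exp (mainL s + ∑ k ∈ Finset.range (n + 1), gud (s + k) + (s + 1) -
        (s + n + 1 / 2) * log (1 + (s + 1) / n))) atTop
      (𝓝 ((Real.sqrt Real.pi : ℂ) * (Real.sqrt 2 : ℂ) *
        exp (mainL s + mu s + (s + 1) - (s + 1)))) := by
    apply Tendsto.mul
    · apply Tendsto.mul_const
      exact (continuous_ofReal.tendsto _).comp Stirling.tendsto_stirlingSeq_sqrt_pi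
    · apply (continuous_exp.tendsto _).comp
      apply Tendsto.sub
      · apply Tendsto.add_const
        apply Tendsto.const_add
        have h3 := (summable_norm hs).of_norm.hasSum.tendsto_sum_nat
        exact h3.comp (tendsto_add_atTop_nat 1)
      · exact tendsto_aux s
  have h3 : Tendsto (GammaSeq s) atTop (𝓝 ((Real.sqrt Real.pi : ℂ) * (Real.sqrt 2 : ℂ) *
        exp (mainL s + mu s + (s + 1) - (s + 1)))) := by
    refine h2.congr' ?_
    filter_upwards [eventually_ge_atTop 1] with n hn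
    exact (gammaSeq_eq hs hn).symm
  rw [tendsto_nhds_unique h1 h3]
  congr 1
  · rw [← ofReal_mul, ← Real.sqrt_mul Real.pi_pos.le, mul_comm]
  · congr 1
    unfold mainL
    ring

/-- **Complex Stirling formula** in the right half plane. -/
theorem stirling_complex (s : ℂ) (hs : 0 < s.re) (h2 : 2 ≤ ‖s‖) :
    ∃ μ : ℂ, Complex.Gamma s = (Real.sqrt (2 * Real.pi) : ℂ) *
      Complex.exp ((s - 1 / 2) * Complex.log s - s + μ) ∧ ‖μ‖ ≤ 35 / 100 / ‖s‖ := by
  refine ⟨mu s, Gamma_eq hs, (norm_mu hs).trans ?_⟩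
  have h0 : 0 < ‖s‖ := by linarith
  have h3 : 1 / ‖s‖ ^ 2 ≤ (1 / 2) / ‖s‖ := by
    rw [div_le_div_iff₀ (by positivity) h0]
    nlinarith
  have h4 : 35 / 100 / ‖s‖ = 35 / 100 * (1 / ‖s‖) := by ring
  have h5 : (1 / 2) / ‖s‖ = 1 / 2 * (1 / ‖s‖) := by ring
  rw [h4]
  rw [h5] at h3
  have h6 : 0 < 1 / ‖s‖ := by positivity
  nlinarith

end Pool.Agent.Helper14.Stir
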